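import Mathlib

set_option autoImplicit false

namespace Pool.Agent.Results.MP_ee21b2_co.IntRatio

open Finset

variable {X Y : Type} [Fintype X] [Fintype Y] [DecidableEq X] [DecidableEq Y]

theorem round (c : Y → ℝ) (hc : ∀ i, 0 ≤ c i) (β : ℕ) : ∀ (N : ℕ) (h : Y → ℝ),
    (univ.filter fun i => Int.fract (h i) ≠ 0).card = N → ∑ i, h i ≤ β →
    ∃ g : Y → ℤ, (∀ i, ⌊h i⌋ ≤ g i ∧ g i ≤ ⌈h i⌉) ∧ ∑ i, (g i : ℝ) ≤ β ∧
      ∑ i, c i * h i ≤ ∑ i, c i * g i := by
  intro N
  induction N using Nat.strong_induction_on with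
  | _ N ih =>
    intro h hN hs
    by_cases h2 : ∃ i j, i ≠ j ∧ Int.fract (h i) ≠ 0 ∧ Int.fract (h j) ≠ 0 ∧ c j ≤ c i
    · obtain ⟨i, j, hij, fi, fj, cij⟩ := h2
      have a1 := Int.le_ceil (h i)
      have a2 := Int.floor_le (h j)
      have a3 := Int.floor_le (h i)
      have a4 := Int.le_ceil (h j)
      obtain ⟨δ, d0, d1, d2, d3⟩ : ∃ δ : ℝ, 0 ≤ δ ∧ h i + δ ≤ ⌈h i⌉ ∧ ⌊h j⌋ ≤ h j - δ ∧
          (Int.fract (h i + δ) = 0 ∨ Int.fract (h j - δ) = 0) := by
        rcases le_total (⌈h i⌉ - h i) (h j - ⌊h j⌋) with e | e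
        · exact ⟨⌈h i⌉ - h i, by linarith, by linarith, by linarith, Or.inl (by simp)⟩
        · exact ⟨h j - ⌊h j⌋, by linarith, by linarith, by linarith, Or.inr (by simp)⟩
      let h' : Y → ℝ := fun y => h y + (if y = i then δ else 0) - (if y = j then δ else 0)
      have e1 : h' i = h i + δ := by simp [h', hij]
      have e2 : h' j = h j - δ := by simp [h', hij.symm]
      have e3 : ∀ y, y ≠ i → y ≠ j → h' y = h y := fun y a b => by simp [h', a, b]
      obtain ⟨g, g1, g2, g3⟩ := ih _ (hN ▸ card_lt_card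
        (show (univ.filter fun y => Int.fract (h' y) ≠ 0) ⊂ univ.filter fun y => Int.fract (h y) ≠ 0
          from ⟨fun y hy => by
            by_cases a : y = i
            · simp [a, fi]
            by_cases b : y = j
            · simp [b, fj]
            rwa [mem_filter, e3 y a b, ← mem_filter (p := fun y => Int.fract (h y) ≠ 0)] at hy,
          fun hs => by
            rcases d3 with d3 | d3
            · exact (mem_filter.1 (hs (mem_filter.2 ⟨mem_univ i, fi⟩))).2 (e1 ▸ d3)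
            · exact (mem_filter.1 (hs (mem_filter.2 ⟨mem_univ j, fj⟩))).2 (e2 ▸ d3)⟩)) h' rfl
        (by simpa [h', sum_add_distrib, sum_sub_distrib] using hs)
      refine ⟨g, fun y => ?_, g2, le_trans ?_ g3⟩
      · have : (⌊h y⌋ : ℝ) ≤ h' y ∧ h' y ≤ ⌈h y⌉ := by
          by_cases a : y = i
          · rw [a, e1]; constructor <;> linarith
          by_cases b : y = j
          · rw [b, e2]; constructor <;> linarith
          rw [e3 y a b]
          exact ⟨Int.floor_le _, Int.le_ceil _⟩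
        exact ⟨(Int.le_floor.2 this.1).trans (g1 y).1, (g1 y).2.trans (Int.ceil_le.2 this.2)⟩
      · simp only [h', mul_add, mul_sub, sum_add_distrib, sum_sub_distrib, mul_ite, mul_zero,
          sum_ite_eq', mem_univ, if_true]
        nlinarith
    · refine ⟨fun i => ⌈h i⌉, fun i => ⟨Int.floor_le_ceil _, le_rfl⟩, ?_,
        sum_le_sum fun i _ => mul_le_mul_of_nonneg_left (Int.le_ceil _) (hc i)⟩
      have h3 : ∑ i, ((⌈h i⌉ : ℝ) - h i) < 1 := by
        have z : ∀ j, Int.fract (h j) = 0 → (⌈h j⌉ : ℝ) - h j = 0 := fun j e => by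
          have e' : h j = ⌊h j⌋ := by rw [Int.fract] at e; linarith
          rw [e']; simp
        by_cases e : ∃ i, Int.fract (h i) ≠ 0
        · obtain ⟨i, fi⟩ := e
          rw [sum_eq_single i (fun j _ hj => z j (by_contra fun fj => ?_)) (by simp)]
          · linarith [Int.ceil_lt_add_one (h i)]
          · rcases le_total (c j) (c i) with e | e
            exacts [h2 ⟨i, j, hj.symm, fi, fj, e⟩, h2 ⟨j, i, hj, fj, fi, e⟩]
        · push Not at e
          simp [z _ (e _)]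
      rw [sum_sub_distrib] at h3
      have h4 : ((∑ i, ⌈h i⌉ : ℤ) : ℝ) < ((β + 1 : ℤ) : ℝ) := by push_cast; linarith
      have h5 : ((∑ i, ⌈h i⌉ : ℤ) : ℝ) ≤ ((β : ℤ) : ℝ) := by
        exact_mod_cast Int.lt_add_one_iff.1 (by exact_mod_cast h4)
      simpa using h5

def Ok (m : ℕ) (β : Y → ℕ) (H : Y → Y → ℝ) : Prop :=
  (∀ a b, 0 ≤ H a b ∧ H a b ≤ m) ∧ (∀ a, H a a = 0) ∧ ∀ a, ∑ b, H a b ≤ β a

theorem rows (m : ℕ) (β : Y → ℕ) (H : Y → Y → ℝ) (hH : Ok m β H) (s : Finset Y) :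
    ∃ G, Ok m β G ∧ (∀ a ∈ s, ∀ b, ∃ z : ℤ, G a b = z) ∧
      ∑ a, ∑ b, H a b * H b a ≤ ∑ a, ∑ b, G a b * G b a := by
  induction s using Finset.induction_on with
  | empty => exact ⟨H, hH, by simp, le_rfl⟩
  | insert y s _ ih =>
    obtain ⟨G, ⟨o1, o2, o3⟩, i1, i2⟩ := ih
    obtain ⟨g, g1, g2, g3⟩ := round (fun b => G b y) (fun b => (o1 b y).1) (β y) _ (G y) rfl (o3 y)
    have gy : g y = 0 := by have := g1 y; simp only [o2, Int.floor_zero, Int.ceil_zero] at this; omega
    let d : Y → ℝ := fun b => g b - G y b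
    have dy : d y = 0 := by simp [d, gy, o2]
    refine ⟨fun a b => G a b + if a = y then d b else 0, ⟨fun a b => ?_, fun a => ?_, fun a => ?_⟩,
      fun a ha b => ?_, i2.trans ?_⟩
    · by_cases e : a = y
      · simp only [e, if_true, d, add_sub_cancel]
        exact ⟨by exact_mod_cast (Int.floor_nonneg.2 (o1 y b).1).trans (g1 b).1, by
          exact_mod_cast (g1 b).2.trans (Int.ceil_le.2 (by exact_mod_cast (o1 y b).2) :
            ⌈G y b⌉ ≤ (m : ℤ))⟩
      · simpa [e] using o1 a b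
    · by_cases e : a = y <;> simp [e, o2, dy]
    · by_cases e : a = y
      · simpa [e, d] using g2
      · simpa [e] using o3 a
    · by_cases e : a = y
      · exact ⟨g b, by simp [e, d]⟩
      · simpa [e] using i1 a ((mem_insert.1 ha).resolve_left e) b
    · have h1 : 0 ≤ ∑ b, G b y * d b := by
        simp only [d, mul_sub, sum_sub_distrib]; linarith
      have h2 : ∑ a, ∑ b, (if a = y then d b else 0) * G b a = ∑ b, G b y * d b := by
        rw [sum_eq_single y (fun a _ e => by simp [e]) (by simp)]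
        simp [mul_comm]
      have h3 : ∑ a, ∑ b, (if a = y then d b else 0) * (if b = y then d a else 0) = 0 :=
        sum_eq_zero fun a _ => sum_eq_zero fun b _ => by
          split_ifs with e e' <;> simp_all
      simp only [add_mul, mul_add, sum_add_distrib, h2, h3]
      simp only [mul_ite, mul_zero, sum_ite_eq', mem_univ, if_true]
      linarith

theorem core (m : ℕ) (β : Y → ℕ) (H : Y → Y → ℝ) (hH : Ok m β H) (ho : Odd (∑ a, β a)) :
    ∑ a, ∑ b, H a b * H b a ≤ ((∑ a, β a : ℕ) - 1) * m := by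
  obtain ⟨G, ⟨o1, o2, o3⟩, i1, i2⟩ := rows m β H hH univ
  choose z hz using fun a b => i1 a (mem_univ a) b
  simp only [hz] at o1 o2 o3 i2
  refine i2.trans ?_
  have p1 : ∀ a b, 0 ≤ z a b ∧ z a b ≤ m := fun a b => by exact_mod_cast o1 a b
  have p2 : ∀ a, z a a = 0 := fun a => by exact_mod_cast o2 a
  have p3 : ∑ a, ∑ b, z a b ≤ (∑ a, β a : ℕ) := by
    push_cast
    exact sum_le_sum fun a _ => by exact_mod_cast o3 a
  suffices h : ∑ a, ∑ b, z a b * z b a ≤ ((∑ a, β a : ℕ) - 1) * (m : ℤ) by exact_mod_cast h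
  generalize ∑ a, β a = t at *
  let e : Y × Y → ℤ := fun p => (z p.1 p.2 + z p.2 p.1) % 2
  have q1 : ∀ a b, 2 * (z a b * z b a) + m * e (a, b) ≤ m * z a b + m * z b a := fun a b => by
    obtain ⟨a1, a2⟩ := p1 a b
    obtain ⟨b1, b2⟩ := p1 b a
    rcases Int.emod_two_eq_zero_or_one (z a b + z b a) with h | h <;> simp only [e, h]
    · nlinarith
    · rcases (by omega : z a b + 1 ≤ z b a ∨ z b a + 1 ≤ z a b) with h | h <;> nlinarith
  have q2 := sum_le_sum fun a (_ : a ∈ univ) => sum_le_sum fun b (_ : b ∈ univ) => q1 a b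
  simp only [sum_add_distrib, ← mul_sum] at q2
  rw [sum_comm (f := fun a b => z b a), ← Fintype.sum_prod_type (f := e)] at q2
  have e0 : ∀ p, 0 ≤ e p := fun p => Int.emod_nonneg _ two_ne_zero
  have m0 : (0 : ℤ) ≤ m := by positivity
  by_cases h : ∃ p, e p = 1
  · obtain ⟨p, hp⟩ := h
    have hne : p ≠ p.swap := fun h => by
      have : p.1 = p.2 := congrArg Prod.fst h
      simp [e, this, p2] at hp
    have q3 := sum_le_sum_of_subset_of_nonneg (subset_univ {p, p.swap}) fun p _ _ => e0 p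
    rw [sum_pair hne, hp, show e p.swap = 1 by rw [← hp]; simp [e, add_comm]] at q3
    nlinarith
  · have q3 : ((∑ a, ∑ b, z a b : ℤ) : ZMod 2) = 0 := by
      push_cast
      rw [← Fintype.sum_prod_type']
      refine sum_involution (fun p _ => p.swap) (fun p _ => ?_) (fun p _ hp h => hp ?_)
        (fun _ _ => mem_univ _) fun _ _ => rfl
      · have : e p = 0 := (Int.emod_two_eq_zero_or_one _).resolve_right fun h' => h ⟨p, h'⟩
        exact_mod_cast (ZMod.intCast_zmod_eq_zero_iff_dvd _ 2).2 (Int.dvd_of_emod_eq_zero this)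
      · have : p.2 = p.1 := congrArg Prod.fst h
        simp [this, p2]
    obtain ⟨u, hu⟩ := (ZMod.intCast_zmod_eq_zero_iff_dvd _ 2).1 q3
    obtain ⟨v, hv⟩ := ho
    have q4 : ∑ a, ∑ b, z a b ≤ t - 1 := by push_cast at hu; omega
    have q5 := sum_nonneg fun p (_ : p ∈ univ) => e0 p
    nlinarith

theorem half (M : X → Y → ℝ) (h0 : ∀ x y, 0 ≤ M x y) (R : ℝ) (hR : 0 < R) (m : ℕ)
    (hr : ∀ x, ∑ y, M x y ≤ R) (hc : ∀ y, ∑ x, M x y ≤ m * R) (Z : Finset (X × Y))
    (hZ : ∀ p ∈ Z, M p.1 p.2 = 0) (ho : Odd Z.card) :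
    ∑ p ∈ Z, ∑ q ∈ Z, M p.1 q.2 * M q.1 p.2 ≤ (Z.card - 1) * R * (m * R) := by
  let A : Y → Finset X := fun y => univ.filter fun x => (x, y) ∈ Z
  have hs : ∀ f : X × Y → ℝ, ∑ p ∈ Z, f p = ∑ y, ∑ x ∈ A y, f (x, y) := fun f => by
    simp only [A, sum_filter]
    rw [← Fintype.sum_prod_type_right' (f := fun x y => if (x, y) ∈ Z then f (x, y) else 0)]
    simp
  have ht : ∑ y, (A y).card = Z.card := by
    have := hs fun _ => 1
    simp only [sum_const, nsmul_eq_mul, mul_one] at this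
    exact_mod_cast this.symm
  have := core m (fun y => (A y).card) (fun a b => (∑ x ∈ A a, M x b) / R) ⟨fun a b =>
    ⟨div_nonneg (sum_nonneg fun _ _ => h0 _ _) hR.le, (div_le_iff₀ hR).2
      ((sum_le_sum_of_subset_of_nonneg (subset_univ _) fun _ _ _ => h0 _ _).trans (hc b))⟩,
    fun a => div_eq_zero_iff.2 (Or.inl (sum_eq_zero fun x hx => hZ (x, a) (mem_filter.1 hx).2)),
    fun a => by
      rw [← sum_div, div_le_iff₀ hR, sum_comm]
      simpa using sum_le_card_nsmul _ _ _ fun x (_ : x ∈ A a) => hr x⟩ (ht ▸ ho)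
  simp only [div_mul_div_comm, ← sum_div, ht] at this
  rw [div_le_iff₀ (by positivity)] at this
  refine le_trans (le_of_eq ?_) (this.trans (le_of_eq (by ring)))
  simp only [hs, sum_mul_sum]
  exact sum_congr rfl fun a _ => sum_comm

theorem result (M : X → Y → ℝ) (h0 : ∀ x y, 0 ≤ M x y) (R C : ℝ) (hR : 0 < R) (hC : 0 < C)
    (hr : ∀ x, ∑ y, M x y ≤ R) (hc : ∀ y, ∑ x, M x y ≤ C)
    (hm : ∃ m : ℕ, C = m * R ∨ R = m * C) (Z : Finset (X × Y))
    (hZ : ∀ p ∈ Z, M p.1 p.2 = 0) (ho : Odd Z.card) :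
    ∑ p ∈ Z, ∑ q ∈ Z, M p.1 q.2 * M q.1 p.2 ≤ (Z.card - 1) * R * C := by
  obtain ⟨m, rfl | rfl⟩ := hm
  · exact half M h0 R hR m hr hc Z hZ ho
  · have := half (fun y x => M x y) (fun _ _ => h0 _ _) C hC m hc hr
      (Z.map (Equiv.prodComm X Y).toEmbedding) (by simpa using fun a b h => hZ (b, a) h)
      (by simpa using ho)
    simp only [sum_map, card_map, Equiv.coe_toEmbedding, Equiv.prodComm_apply, Prod.fst_swap,
      Prod.snd_swap] at this
    rw [sum_comm] at this
    linarith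

end Pool.Agent.Results.MP_ee21b2_co.IntRatio
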